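import Pool.Agent.NH34.Cmp.FFin

/-!
# The index of the motivated classes is the same for all realisations

Let `X` be a smooth projective variety over a finitely generated subfield of the complex numbers. For
a prime number `ℓ` let `tateNum (X ^ n)` be the number of linearly independent `ℓ`-adic Tate classes on
`X ^ n` (of all degrees, invariant under an open subgroup of the Galois group after a Tate twist), let
`hodgeNum (X ^ n)` be the number of linearly independent Hodge classes, `motNum (X ^ n)` the number of
linearly independent motivated classes (André), and `absNum (X ^ n)` the number of linearly independent
rational classes which are Hodge classes and, at the same time, Tate classes for all prime numbers of a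
given set (for instance, for all prime numbers). The motivated conjecture of Mumford and Tate for `X`
says that these numbers are all equal for all `n`.

*Theorem.* There is a number `N` (a positive integer or infinity) such that
`absNum (X ^ n) / motNum (X ^ n)` converges to `N`; it is `1` if and only if all classes which are Hodge
classes and Tate classes for all prime numbers are motivated, on all powers of `X`. And

(1) `hodgeNum (X ^ n) / motNum (X ^ n)` converges to `N` or to infinity. In the first case all Hodge
classes on all powers of `X` are Tate classes for all prime numbers, or `N` is infinite and the next
case holds too; in the second case `absNum (X ^ n)` is negligible in comparison with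
`hodgeNum (X ^ n)`.

(2) For every prime number `ℓ` the quotient `tateNum (X ^ n) / motNum (X ^ n)` converges to `N` or to
infinity. In the first case all `ℓ`-adic Tate classes on all powers of `X` are linear combinations, with
coefficients in `ℚ_ℓ`, of rational classes which are Hodge classes and which are Tate classes for *all*
prime numbers, and the intersection form on the Tate classes is nondegenerate; in the second case
`absNum (X ^ n)` is negligible in comparison with `tateNum (X ^ n)`.

(The precise alternatives are stated in the theorem: in each case the statement on the index and the
statement on the classes hold together.)

So the indices of the motivated classes in the Hodge classes and in the Tate classes for the different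
prime numbers, as far as they are finite, are all equal. If the motivated Tate conjecture holds for all
powers of `X` and one prime number, or at least a positive proportion of all Tate classes for this prime
number is motivated, then the Tate classes for this prime number are rational: they come from
rational classes, these are Hodge classes, and these are Tate classes for all other prime numbers.
In general, not even the rationality of the space of the Tate classes is known, nor that the Tate
classes for one prime number have anything to do with those for another one.

`k` is the algebraic closure of the finitely generated field, `T` is the singular cohomology with the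
Hodge decomposition, `W i` is the `ℓ i`-adic cohomology with the action `G i` of the Galois group `Γ`,
and `C i` is the comparison isomorphism of Artin. The properties of these theories which are used are
listed in `HodgeTheory`, `IsGaloisTheory`, `IsContinuousTheory` and `ArtinComparison`.

Idea: let `S` be the system of the rational classes which are Hodge classes and Tate classes for all
prime numbers. If `S` is not negligible in a system `T'` of `ℓ`-adic classes then each automorphism of
the cohomology of all varieties with complex coefficients which fixes the classes in `S`, such as the
operator `2 ^ (p - q)` of the Hodge decomposition or the operators given by the elements of the Galois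
group in the cohomology for another prime number, has finite order on the classes in `T'` (growth law
for ranks of systems of correspondences). The same holds for the system conjugate to `T'` under each
automorphism of the field of complex numbers. So a linear combination `∑ b_i m_i` in `T'` of rational
classes `m_i`, with `b_i` linearly independent over `ℚ`, has the property that the automorphism has
finite order on all classes `∑ g(b_i) m_i`, and therefore on each `m_i`.
-/

open CategoryTheory AlgebraicGeometry

universe u v w

namespace Pool.Agent.Results.MP_b8862a_ag.PrimeIndependence

open Pool.Agent.H914 Pool.Agent.H914.VarClass Pool.Agent.H914.VarClass.Obj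
  Pool.Agent.H914.WeilCohomology Pool.Agent.NH34.Lin Pool.Agent.NH34.Gal Pool.Agent.NH34.Hdg
  Pool.Agent.NH34.Cmp Pool.Agent.NH34.Law
open Pool.Agent.Y133.Half (pw HasIndex)

/-- **The index of the motivated classes is the same for all realisations for which it is finite.** -/
theorem result {k : Type u} [Field k] {𝒱 : VarClass k} {ops : CycleOps 𝒱}
    (T : HodgeTheory ops) {ι : Type v} (W : ι → WeilCohomology.{u, 0} ops)
    (C : ∀ i, ArtinComparison T.W (W i)) (ℓ : ι → ℕ) [∀ i, Fact (ℓ i).Prime]
    (e : ∀ i, (W i).K ≃+* ℚ_[ℓ i]) {Γ : Type w} [Group Γ] [TopologicalSpace Γ]
    [IsTopologicalGroup Γ] [CompactSpace Γ] [TotallyDisconnectedSpace Γ]
    (G : ∀ i, ActionData (W i) Γ) (hG : ∀ i, IsGaloisTheory (G i))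
    (hc : ∀ i, IsContinuousTheory (e i) (G i)) (X : 𝒱.Obj) [Nontrivial (T.W.H X)] :
    ∃ N : ℕ∞, 1 ≤ N ∧ HasIndex (fun n => absNum C G (pw X n)) (fun n => motNum T (pw X n)) N ∧
      (N = 1 ↔ ∀ n, AbsoluteIsMotivated C G (pw X n)) ∧
      ((HasIndex (fun n => hodgeNum T (pw X n)) (fun n => motNum T (pw X n)) N ∧
          ∀ n, HodgeIsAbsolute C G (pw X n)) ∨
        (HasIndex (fun n => hodgeNum T (pw X n)) (fun n => motNum T (pw X n)) ⊤ ∧
          Negligible (fun n => absNum C G (pw X n)) (fun n => hodgeNum T (pw X n)))) ∧
      ∀ i, (HasIndex (fun n => tateNum (G i) (pw X n)) (fun n => motNum T (pw X n)) N ∧
          ∀ n, TateIsAbsolute C G i (pw X n) ∧ TateIsPerfect (G i) (pw X n)) ∨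
        (HasIndex (fun n => tateNum (G i) (pw X n)) (fun n => motNum T (pw X n)) ⊤ ∧
          Negligible (fun n => absNum C G (pw X n)) (fun n => tateNum (G i) (pw X n))) :=
  independence hG hc X

end Pool.Agent.Results.MP_b8862a_ag.PrimeIndependence
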